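import Mathlib
import Pool.Agent.Helper74.ISC.Defs
import Pool.Agent.Helper62.HC.Final

/-!
# Isoperimetric inequality for compact minimal submanifolds of codimension at least five

Let `M` be a compact minimal `m`-dimensional submanifold with boundary `B` of `ℝⁿ`, `3 ≤ m`, and let
`k = n - m ≥ 5` be its codimension. Brendle's inequality `n ω_n m ^ m |M| ^ (m - 1) ≤ k ω_k |B| ^ m`
is improved by the factor `((n - 2) / (k - 2)) ^ ((k - 2) / 2)`.
-/

namespace Pool.Agent.Results.MP_41af65_gt.HighCodimension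

open MeasureTheory Pool.Agent.Helper74.Iso Pool.Agent.Helper74.ISC
open scoped ENNReal

/-- Let `3 ≤ m` and `m + 5 ≤ n`, and let `M` be a compact smooth `m`-dimensional submanifold with
boundary `B` of `ℝⁿ`, of any topology. Let `k = n - m` and let `ω_j` be the volume of the unit ball
of `ℝʲ`. If `M` is stationary for area, then
`n * ω_n * ((n - 2) / (k - 2)) ^ ((k - 2) / 2) * m ^ m * |M| ^ (m - 1) ≤ k * ω_k * |B| ^ m`. -/
theorem result {n m : ℕ} (hm : 3 ≤ m) (hn : m + 5 ≤ n) {M B : Set (EuclideanSpace ℝ (Fin n))}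
    (hM : IsCompactSubmanifoldWithBoundary m M B) (hmin : IsStationary m M B) :
    (n : ℝ≥0∞) * volume (Metric.ball (0 : EuclideanSpace ℝ (Fin n)) 1) *
        ENNReal.ofReal ((((n : ℝ) - 2) / ((n : ℝ) - m - 2)) ^ (((n : ℝ) - m - 2) / 2)) *
        (m : ℝ≥0∞) ^ m * μHE[m] M ^ (m - 1) ≤
      ((n - m : ℕ) : ℝ≥0∞) * volume (Metric.ball (0 : EuclideanSpace ℝ (Fin (n - m))) 1) *
        μHE[m - 1] B ^ m :=
  Pool.Agent.Helper62.HC.main_gain (by omega) hn hM hmin

end Pool.Agent.Results.MP_41af65_gt.HighCodimension
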