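import Mathlib
import Pool.Agent.Helper74.Iso.Defs
import Pool.Agent.Helper74.Iso3.Defs3
import Pool.Agent.Helper74.Iso3.Assembly

/-!
# An isoperimetric inequality for all compact minimal surfaces in every codimension

Every compact minimal surface `M` with boundary `B` in `ℝⁿ`, orientable or not, satisfies
`(18/5) π · area(M) ≤ length(B)²`: its area is at most `10/9` of that of a flat round disc with the
same boundary length.
-/

namespace Pool.Agent.Results.MP_41af65_gt.NearSharpSurfaces

open MeasureTheory Pool.Agent.Helper74.Iso Pool.Agent.Helper74.Iso3

/-- Let `M` be a compact smooth surface with boundary `B` in `ℝⁿ`, of any topology (orientable or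
not) and with any number of boundary components. If `M` is stationary for area, then
`(18/5) π · area(M) ≤ length(B)²`. -/
theorem result {n : ℕ} {M B : Set (EuclideanSpace ℝ (Fin n))}
    (hM : IsCompactSurfaceWithBoundary M B) (hmin : IsStationary M B) :
    ENNReal.ofReal (18 / 5 * Real.pi) * μHE[2] M ≤ (μHE[1] B) ^ 2 :=
  near_main hM hmin

end Pool.Agent.Results.MP_41af65_gt.NearSharpSurfaces
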