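import Mathlib
import Pool.Agent.Helper74.ISC.Defs
import Pool.Agent.Helper74.ISC.General

/-!
# The sharp isoperimetric inequality for compact minimal submanifolds of codimension at most four

Every compact minimal `m`-dimensional submanifold `M` with boundary `B` of `ℝⁿ`, `2 ≤ m`,
`n ≤ m + 4`, satisfies `m ^ m ω_m |M| ^ (m - 1) ≤ |B| ^ m`: a flat round `m`-disc has the largest
area for the given boundary area.
-/

namespace Pool.Agent.Results.MP_41af65_gt.SharpCodimFour

open MeasureTheory Pool.Agent.Helper74.Iso Pool.Agent.Helper74.ISC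
open scoped ENNReal

/-- Let `2 ≤ m` and `n ≤ m + 4`, and let `M` be a compact smooth `m`-dimensional submanifold with
boundary `B` of `ℝⁿ`, of any topology. If `M` is stationary for area, then
`m ^ m * ω_m * |M| ^ (m - 1) ≤ |B| ^ m`, where `ω_m` is the volume of the unit ball of `ℝᵐ`. -/
theorem result {n m : ℕ} (hm : 2 ≤ m) (hn : n ≤ m + 4) {M B : Set (EuclideanSpace ℝ (Fin n))}
    (hM : IsCompactSubmanifoldWithBoundary m M B) (hmin : IsStationary m M B) :
    (m : ℝ≥0∞) ^ m * volume (Metric.ball (0 : EuclideanSpace ℝ (Fin m)) 1) *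
      μHE[m] M ^ (m - 1) ≤ μHE[m - 1] B ^ m :=
  main hm hn hM hmin

end Pool.Agent.Results.MP_41af65_gt.SharpCodimFour
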