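import Mathlib
import Pool.Agent.Helper74.Iso.Defs
import Pool.Agent.Helper74.Iso2.Defs2
import Pool.Agent.Helper74.Iso3.Defs3
import Pool.Agent.Helper74.Iso3.Assembly

/-!
# The sharp isoperimetric inequality for compact orientable minimal surfaces in every codimension

Every compact orientable minimal surface `M` with boundary `B` in `ℝⁿ` satisfies
`4 π · area(M) ≤ length(B)²`: a flat round disc has the largest area for the given boundary length.
-/

namespace Pool.Agent.Results.MP_41af65_gt.SharpOrientable

open MeasureTheory Pool.Agent.Helper74.Iso Pool.Agent.Helper74.Iso2 Pool.Agent.Helper74.Iso3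

/-- Let `M` be a compact smooth surface with boundary `B` in `ℝⁿ`, of any topology and with any
number of boundary components. If `M` is orientable and stationary for area, then
`4 π · area(M) ≤ length(B)²`. -/
theorem result {n : ℕ} {M B : Set (EuclideanSpace ℝ (Fin n))}
    (hM : IsCompactSurfaceWithBoundary M B) (horient : ∃ J, IsOrientation M J)
    (hmin : IsStationary M B) :
    ENNReal.ofReal (4 * Real.pi) * μHE[2] M ≤ (μHE[1] B) ^ 2 := by
  obtain ⟨J, hJ⟩ := horient
  exact classical_main hM hJ hmin

end Pool.Agent.Results.MP_41af65_gt.SharpOrientable
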